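import Pool.Agent.Helper39.Uct.Goals4

/-!
# Packet STP: the step of the construction of nested data
-/

open scoped ComplexOrder

namespace Pool.Agent.Helper50.Uct3

open Pool.Agent.Helper39.Uct Pool.Agent.Helper39.Uct.Fib Filter Topology
open Pool.Agent.Helper10.Uct Pool.Agent.Helper43.Uct

section au

variable {B : Type} [NonUnitalCStarAlgebra B]

/-- An approximate unit of the form `e z e`. -/
theorem exists_cut (e : B) (he : IsSelfAdjoint e) (W : NonUnitalStarSubalgebra ℂ B)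
    (hW : IsClosed (W : Set B)) (heW : e ∈ W) (ε : ℝ) (hε : 0 < ε) :
    ∃ z ∈ W, ‖e * z * e‖ ≤ 1 ∧ ‖e * z * e * e - e‖ ≤ ε ∧ ‖e * (e * z * e) - e‖ ≤ ε := by
  let r : ℝ → ℝ := fun t => t ^ 2 / (t ^ 4 + ε ^ 4)
  have hden : ∀ t : ℝ, 0 < t ^ 4 + ε ^ 4 := fun t => by positivity
  have hr : Continuous r := by
    refine Continuous.div (by fun_prop) (by fun_prop) (fun t => (hden t).ne')
  have hr0 : r 0 = 0 := by simp [r]
  have hcl := hW
  have hz : cfcₙ r e ∈ W := cfcₙ_mem r heW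
  have h1 : cfcₙ (fun x : ℝ => x * r x * x) e = e * cfcₙ r e * e := by
    rw [cfcₙ_mul (fun x : ℝ => x * r x) (fun x => x) e (by fun_prop) (by simp) (by fun_prop)
      (by simp), cfcₙ_mul (fun x : ℝ => x) r e (by fun_prop) (by simp) (by fun_prop)
      (by simp [hr0]), cfcₙ_id' ℝ e]
  have h2 : cfcₙ (fun x : ℝ => x * r x * x * x - x) e = e * cfcₙ r e * e * e - e := by
    rw [cfcₙ_sub (fun x : ℝ => x * r x * x * x) (fun x => x) e (by fun_prop) (by simp)
      (by fun_prop) (by simp), cfcₙ_mul (fun x : ℝ => x * r x * x) (fun x => x) e (by fun_prop)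
      (by simp) (by fun_prop) (by simp), h1, cfcₙ_id' ℝ e]
  have h3 : cfcₙ (fun x : ℝ => x * r x * x * x - x) e = e * (e * cfcₙ r e * e) - e := by
    have : (fun x : ℝ => x * r x * x * x - x) = fun x => x * (x * r x * x) - x := by
      funext x; ring
    rw [this, cfcₙ_sub (fun x : ℝ => x * (x * r x * x)) (fun x => x) e (by fun_prop) (by simp)
      (by fun_prop) (by simp), cfcₙ_mul (fun x : ℝ => x) (fun x => x * r x * x) e (by fun_prop)
      (by simp) (by fun_prop) (by simp), h1, cfcₙ_id' ℝ e]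
  have h4 : ‖cfcₙ (fun x : ℝ => x * r x * x * x - x) e‖ ≤ ε := by
    refine norm_cfcₙ_le (fun x _ => ?_)
    have e1 : x * r x * x * x - x = -(x * ε ^ 4 / (x ^ 4 + ε ^ 4)) := by
      have := (hden x).ne'
      simp only [r]
      field_simp
      ring
    rw [e1, norm_neg, Real.norm_eq_abs, abs_div, abs_mul, abs_of_pos (hden x),
      abs_of_pos (by positivity : (0:ℝ) < ε ^ 4), div_le_iff₀ (hden x)]
    rcases le_total |x| ε with h | h
    · have : |x| * ε ^ 4 ≤ ε * ε ^ 4 := mul_le_mul_of_nonneg_right h (by positivity)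
      have h5 : 0 ≤ ε * x ^ 4 := by positivity
      linarith
    · have h5 : x ^ 4 = |x| ^ 4 := by
        have : x ^ 4 = (x ^ 2) ^ 2 := by ring
        rw [this, ← sq_abs x]; ring
      have h6 : ε ^ 3 ≤ |x| ^ 3 := pow_le_pow_left₀ hε.le h 3
      have h7 : |x| * ε ^ 4 ≤ ε * |x| ^ 4 := by
        have : |x| * ε ^ 3 ≤ |x| * |x| ^ 3 := mul_le_mul_of_nonneg_left h6 (abs_nonneg x)
        have h8 := mul_le_mul_of_nonneg_left this hε.le
        nlinarith
      rw [h5]
      have h9 : 0 < ε * ε ^ 4 := by positivity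
      linarith
  refine ⟨cfcₙ r e, hz, ?_, ?_, ?_⟩
  · rw [← h1]
    refine norm_cfcₙ_le (fun x _ => ?_)
    have e1 : x * r x * x = x ^ 4 / (x ^ 4 + ε ^ 4) := by
      simp only [r]; ring
    rw [e1, Real.norm_eq_abs, abs_div, abs_of_pos (hden x), abs_of_nonneg (by positivity),
      div_le_one (hden x)]
    have : 0 < ε ^ 4 := by positivity
    linarith
  · rw [← h2]; exact h4
  · rw [← h3]; exact h4

/-- The approximate unit acts on the corner. -/
theorem exists_seq (e : B) (he : IsSelfAdjoint e) (W : NonUnitalStarSubalgebra ℂ B)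
    (hW : IsClosed (W : Set B)) (heW : e ∈ W) :
    ∃ v : ℕ → B, (∀ n, ∃ z ∈ W, v n = e * z * e) ∧
      ∀ x ∈ closure {x : B | ∃ y, x = e * y * e},
        Tendsto (fun n => v n * x) atTop (𝓝 x) ∧ Tendsto (fun n => x * v n) atTop (𝓝 x) := by
  have h : ∀ n : ℕ, ∃ z ∈ W, ‖e * z * e‖ ≤ 1 ∧ ‖e * z * e * e - e‖ ≤ 1 / ((n : ℝ) + 1) ∧
      ‖e * (e * z * e) - e‖ ≤ 1 / ((n : ℝ) + 1) := fun n =>
    exists_cut e he W hW heW _ (by positivity)
  choose z hz h1 h2 h3 using h
  have hlim : Tendsto (fun n : ℕ => 1 / ((n : ℝ) + 1)) atTop (𝓝 0) :=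
    tendsto_one_div_add_atTop_nhds_zero_nat
  have hl : Tendsto (fun n => e * z n * e * e) atTop (𝓝 e) :=
    tendsto_iff_norm_sub_tendsto_zero.2 (squeeze_zero (fun _ => norm_nonneg _) h2 hlim)
  have hr : Tendsto (fun n => e * (e * z n * e)) atTop (𝓝 e) :=
    tendsto_iff_norm_sub_tendsto_zero.2 (squeeze_zero (fun _ => norm_nonneg _) h3 hlim)
  refine ⟨fun n => e * z n * e, fun n => ⟨z n, hz n, rfl⟩, fun x hx => ⟨?_, ?_⟩⟩
  · rw [Metric.tendsto_atTop]
    intro δ hδ
    obtain ⟨_, ⟨y, rfl⟩, hy⟩ := Metric.mem_closure_iff.1 hx (δ / 3) (by positivity)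
    have h4 : Tendsto (fun n => e * z n * e * (e * y * e)) atTop (𝓝 (e * y * e)) := by
      have := hl.mul_const (y * e)
      refine (this.congr (fun n => ?_)).trans (by rw [mul_assoc])
      noncomm_ring
    obtain ⟨N, hN⟩ := Metric.tendsto_atTop.1 h4 (δ / 3) (by positivity)
    refine ⟨N, fun n hn => ?_⟩
    have h5 := hN n hn
    rw [dist_eq_norm] at h5 hy ⊢
    have h6 : e * z n * e * x - x = e * z n * e * (x - e * y * e) +
        (e * z n * e * (e * y * e) - e * y * e) + (e * y * e - x) := by noncomm_ring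
    rw [h6]
    have h7 : ‖e * z n * e * (x - e * y * e)‖ ≤ ‖x - e * y * e‖ := by
      refine (norm_mul_le _ _).trans ?_
      exact mul_le_of_le_one_left (norm_nonneg _) (h1 n)
    have h8 : ‖e * y * e - x‖ = ‖x - e * y * e‖ := norm_sub_rev _ _
    calc _ ≤ ‖e * z n * e * (x - e * y * e)‖ + ‖e * z n * e * (e * y * e) - e * y * e‖ +
        ‖e * y * e - x‖ := norm_add₃_le
      _ < δ := by linarith
  · rw [Metric.tendsto_atTop]
    intro δ hδ
    obtain ⟨_, ⟨y, rfl⟩, hy⟩ := Metric.mem_closure_iff.1 hx (δ / 3) (by positivity)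
    have h4 : Tendsto (fun n => (e * y * e) * (e * z n * e)) atTop (𝓝 (e * y * e)) := by
      have := hr.const_mul (e * y)
      refine this.congr (fun n => ?_)
      noncomm_ring
    obtain ⟨N, hN⟩ := Metric.tendsto_atTop.1 h4 (δ / 3) (by positivity)
    refine ⟨N, fun n hn => ?_⟩
    have h5 := hN n hn
    rw [dist_eq_norm] at h5 hy ⊢
    have h6 : x * (e * z n * e) - x = (x - e * y * e) * (e * z n * e) +
        ((e * y * e) * (e * z n * e) - e * y * e) + (e * y * e - x) := by noncomm_ring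
    rw [h6]
    have h7 : ‖(x - e * y * e) * (e * z n * e)‖ ≤ ‖x - e * y * e‖ := by
      refine (norm_mul_le _ _).trans ?_
      exact mul_le_of_le_one_right (norm_nonneg _) (h1 n)
    have h8 : ‖e * y * e - x‖ = ‖x - e * y * e‖ := norm_sub_rev _ _
    calc _ ≤ ‖(x - e * y * e) * (e * z n * e)‖ + ‖(e * y * e) * (e * z n * e) - e * y * e‖ +
        ‖e * y * e - x‖ := norm_add₃_le
      _ < δ := by linarith

end au

/-- A bump function of a self-adjoint element of the unit fibre. -/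
theorem exists_bump {Q : Type} [Group Q] {B : Type} [NonUnitalCStarAlgebra B] (G : Fib Q B)
    (hB : Nontrivial B) : ∃ d ∈ G.fib 1, IsSelfAdjoint d ∧ d ≠ 0 ∧
      ∃ h ∈ G.fib 1, ‖h‖ ≤ 1 ∧ h * d = d := by
  obtain ⟨c, hc, hc0⟩ := exists_unit_ne_zero G hB
  have hs : star c * c ∈ G.fib 1 := smem G hc hc
  have hs0 : star c * c ≠ 0 := fun h => hc0 (CStarRing.star_mul_self_eq_zero_iff _ |>.1 h)
  have hn : ‖star c * c‖ ≠ 0 := norm_ne_zero_iff.2 hs0
  set p : B := (‖star c * c‖⁻¹ : ℝ) • (star c * c) with hp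
  have hpm : p ∈ G.fib 1 := by
    have : p = ((‖star c * c‖⁻¹ : ℝ) : ℂ) • (star c * c) := by
      rw [hp]; exact (Complex.coe_smul _ _).symm
    rw [this]
    exact (G.fib 1).smul_mem _ hs
  have hpsa : IsSelfAdjoint p := IsSelfAdjoint.smul (IsSelfAdjoint.all _) (IsSelfAdjoint.star_mul_self c)
  have hpn : ‖p‖ = 1 := by
    rw [hp, norm_smul, norm_inv, norm_norm, inv_mul_cancel₀ hn]
  have hcl : IsClosed ((Helper17.Uct.CC G : NonUnitalStarSubalgebra ℂ B) : Set B) := G.closed 1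
  have hmem : ∀ f : ℝ → ℝ, cfcₙ f p ∈ G.fib 1 := by
    intro f
    have : cfcₙ f p ∈ Helper17.Uct.CC G := cfcₙ_mem f (show p ∈ Helper17.Uct.CC G from hpm)
    exact this
  let m : ℝ → ℝ := fun t => max (-(1 / 2)) (min (1 / 2) t)
  let g : ℝ → ℝ := fun t => min 1 (2 * |t|)
  have hm : Continuous m := by fun_prop
  have hg : Continuous g := by fun_prop
  have hm0 : m 0 = 0 := by simp [m]
  have hg0 : g 0 = 0 := by simp [g]
  have e1 : cfcₙ (fun t : ℝ => t - m t) p = p - cfcₙ m p := by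
    rw [cfcₙ_sub (fun t : ℝ => t) m p (by fun_prop) (by simp) hm.continuousOn hm0, cfcₙ_id' ℝ p]
  refine ⟨cfcₙ (fun t : ℝ => t - m t) p, hmem _, IsSelfAdjoint.cfcₙ, ?_, cfcₙ g p, hmem _, ?_, ?_⟩
  · intro h0
    rw [e1, sub_eq_zero] at h0
    have h1 : ‖cfcₙ m p‖ ≤ 1 / 2 := by
      refine norm_cfcₙ_le (fun x _ => ?_)
      rw [Real.norm_eq_abs, abs_le]
      refine ⟨le_max_left _ _, max_le (by norm_num) (min_le_left _ _)⟩
    rw [← h0, hpn] at h1
    norm_num at h1
  · refine norm_cfcₙ_le (fun x _ => ?_)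
    rw [Real.norm_eq_abs, abs_le]
    refine ⟨?_, min_le_left _ _⟩
    have : (0 : ℝ) ≤ min 1 (2 * |x|) := le_min zero_le_one (by positivity)
    linarith
  · rw [← cfcₙ_mul g (fun t : ℝ => t - m t) p hg.continuousOn hg0 (by fun_prop) (by simp [hm0])]
    congr 1
    funext t
    simp only [m, g]
    rcases le_total (1 / 2) t with h | h
    · have h1 : min 1 (2 * |t|) = 1 := by
        rw [abs_of_nonneg (by linarith)]; exact min_eq_left (by linarith)
      rw [h1, one_mul]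
    · rcases le_total t (-(1 / 2)) with h' | h'
      · have h1 : min 1 (2 * |t|) = 1 := by
          rw [abs_of_nonpos (by linarith)]; exact min_eq_left (by linarith)
        rw [h1, one_mul]
      · have h1 : max (-(1 / 2)) (min (1 / 2) t) = t := by
          rw [min_eq_right h, max_eq_right h']
        rw [h1]; ring

/-- The topologically graded case. -/
theorem good2_of_altT {Q : Type} [Group Q] {B : Type} [NonUnitalCStarAlgebra B] (G : Fib Q B)
    (hG : G.Comm) (h : AltT G) : Good2 B := by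
  obtain ⟨d, hd, hds, hd0, htop⟩ := h
  obtain ⟨H, instH, ι, hher, hnt, -, G', hG'⟩ :=
    rg Q B G ⊤ Q (⊤ : Subgroup Q).subtype d hds hd0 (fun q hq => absurd (Subgroup.mem_top q) hq) (by
      apply Submodule.le_topologicalClosure
      have := le_iSup (fun k : ((⊤ : Subgroup Q).subtype).ker =>
        G.fib ((k : (⊤ : Subgroup Q)) : Q)) 1
      exact this hd)
  have hfib : ∀ (t : Q) (h : H), h ∈ G'.fib t → ι h ∈ closure {x | ∃ y ∈ G.fib t, x = d * y * d} := by
    intro t h hh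
    rw [hG'] at hh
    refine closure_mono ?_ hh
    intro x hx
    have hx' : x ∈ Submodule.span ℂ {x | ∃ q : (⊤ : Subgroup Q), (⊤ : Subgroup Q).subtype q = t ∧
      ∃ b ∈ G.fib (q : Q), x = d * b * d} := hx
    clear hx
    induction hx' using Submodule.span_induction with
    | mem x hx =>
      obtain ⟨q, hq, b, hb, rfl⟩ := hx
      have hq' : (q : Q) = t := hq
      exact ⟨b, hq' ▸ hb, rfl⟩
    | zero => exact ⟨0, Submodule.zero_mem _, by simp⟩
    | add x y _ _ h1 h2 =>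
      obtain ⟨b, hb, rfl⟩ := h1
      obtain ⟨b', hb', rfl⟩ := h2
      exact ⟨b + b', Submodule.add_mem _ hb hb', by rw [mul_add, add_mul]⟩
    | smul c x _ h1 =>
      obtain ⟨b, hb, rfl⟩ := h1
      exact ⟨c • b, Submodule.smul_mem _ c hb, by rw [mul_smul_comm, smul_mul_assoc]⟩
  refine ⟨H, instH, ι, hher, hnt, Q, inferInstance, G', ?_, ?_⟩
  · intro x hx y hy
    have hsub : closure {x | ∃ y ∈ G.fib 1, x = d * y * d} ⊆ (G.fib 1 : Set B) := by
      refine closure_minimal ?_ (G.closed 1)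
      rintro _ ⟨y, hy, rfl⟩
      have h1 := G.mul_mem 1 1 d y hd hy
      have h2 := G.mul_mem (1 * 1) 1 (d * y) d h1 hd
      simpa using h2
    apply hher.1
    rw [map_mul, map_mul]
    exact hG _ (hsub (hfib 1 x hx)) _ (hsub (hfib 1 y hy))
  · intro s b hb hs
    have h1 := htop s (fun q => ι (b q)) (fun q hq => hfib q _ (hb q hq)) hs
    rw [← map_sum, NonUnitalStarAlgHom.norm_map ι hher.1, NonUnitalStarAlgHom.norm_map ι hher.1] at h1
    exact h1

theorem good2_of_hered {H B : Type} [NonUnitalCStarAlgebra H] [NonUnitalCStarAlgebra B]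
    (ι : H →⋆ₙₐ[ℂ] B) (hι : Hered ι) (h : Good2 H) : Good2 B := by
  obtain ⟨H₁, instH₁, ι₁, hher₁, hnt₁, Q₁, instQ₁, G₁, hc₁, ht₁⟩ := h
  exact ⟨H₁, instH₁, ι.comp ι₁, t_HT H₁ H B ι₁ ι hher₁ hι, hnt₁, Q₁, instQ₁, G₁, hc₁, ht₁⟩

section span

variable {Q : Type} [Group Q] {B : Type} [NonUnitalCStarAlgebra B] (G : Fib Q B)

/-- the homogeneous elements of degree in `H` -/
def HS (H : Subgroup Q) : Set B := {x | ∃ q ∈ H, x ∈ G.fib q}

theorem iSup_eq_span (K : Subgroup Q) :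
    (⨆ k : K, G.fib (k : Q)) = Submodule.span ℂ (HS G K) := by
  apply le_antisymm
  · refine iSup_le fun k x hx => Submodule.subset_span ⟨k, k.2, hx⟩
  · refine Submodule.span_le.2 ?_
    rintro x ⟨q, hq, hx⟩
    exact le_iSup (fun k : K => G.fib (k : Q)) ⟨q, hq⟩ hx

theorem HS_mul (H : Subgroup Q) : ∀ x ∈ HS G H, ∀ y ∈ HS G H, x * y ∈ HS G H := by
  rintro x ⟨q, hq, hx⟩ y ⟨q', hq', hy⟩
  exact ⟨q * q', H.mul_mem hq hq', G.mul_mem _ _ _ _ hx hy⟩

theorem HS_star (H : Subgroup Q) : ∀ x ∈ HS G H, star x ∈ HS G H := by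
  rintro x ⟨q, hq, hx⟩
  exact ⟨q⁻¹, H.inv_mem hq, G.star_mem _ _ hx⟩

/-- The closed span of the fibres over `H`. -/
def WW (H : Subgroup Q) : NonUnitalStarSubalgebra ℂ B :=
  subalg (Submodule.span ℂ (HS G H)).topologicalClosure
    (closure_mul_mem _ _ _ (Submodule.isClosed_topologicalClosure _) (fun x hx y hy =>
      Submodule.le_topologicalClosure _ (Submodule.subset_span (HS_mul G H x hx y hy))))
    (closure_star_mem _ _ (HS_star G H))

theorem WW_closed (H : Subgroup Q) : IsClosed (WW G H : Set B) :=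
  Submodule.isClosed_topologicalClosure _

theorem mem_WW {H : Subgroup Q} {x : B} :
    x ∈ WW G H ↔ x ∈ (Submodule.span ℂ (HS G H)).topologicalClosure := Iff.rfl

theorem fib_WW {H : Subgroup Q} {q : Q} (hq : q ∈ H) {x : B} (hx : x ∈ G.fib q) : x ∈ WW G H :=
  Submodule.le_topologicalClosure _ (Submodule.subset_span ⟨q, hq, hx⟩)

theorem WW_mono {H H' : Subgroup Q} (h : H ≤ H') {x : B} (hx : x ∈ WW G H) : x ∈ WW G H' := by
  refine Submodule.topologicalClosure_mono (Submodule.span_mono ?_) hx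
  rintro y ⟨q, hq, hy⟩
  exact ⟨q, h hq, hy⟩

/-- The closed span of the cut fibres over the preimage of `t`. -/
def NF {M : Subgroup Q} {Q' : Type} [Group Q'] (f : M →* Q') (e : B) (t : Q') :
    Submodule ℂ B :=
  (Submodule.span ℂ {x | ∃ q : M, f q = t ∧ ∃ b ∈ G.fib (q : Q), x = e * b * e}).topologicalClosure

/-- cutting by elements of the approximate unit -/
theorem cut_mem {M K : Subgroup Q} {Q' : Type} [Group Q'] (f : M →* Q')
    (hKM : K ≤ M) (hf : ∀ q : M, (q : Q) ∈ K → f q = 1) (e : B) (heW : e ∈ WW G K)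
    {z : B} (hz : z ∈ WW G K) (q : M) {b : B} (hb : b ∈ G.fib (q : Q)) :
    (e * z * e) * b * (e * z * e) ∈ NF G f e (f q) := by
  have h1 : z * e ∈ WW G K := (WW G K).mul_mem hz heW
  have h2 : e * z ∈ WW G K := (WW G K).mul_mem heW hz
  let S : Submodule ℂ B := (Submodule.span ℂ
    {x | ∃ q' : M, f q' = f q ∧ x ∈ G.fib (q' : Q)}).topologicalClosure
  have h3 : (z * e) * b * (e * z) ∈ S := by
    refine closure_sandwich (HS G K) (HS G K) S (Submodule.isClosed_topologicalClosure _) b ?_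
      _ h1 _ h2
    rintro x ⟨k, hk, hx⟩ y ⟨k', hk', hy⟩
    refine Submodule.le_topologicalClosure _ (Submodule.subset_span
      ⟨⟨k, hKM hk⟩ * q * ⟨k', hKM hk'⟩, ?_, ?_⟩)
    · rw [map_mul, map_mul, hf ⟨k, hKM hk⟩ hk, hf ⟨k', hKM hk'⟩ hk', one_mul, mul_one]
    · exact G.mul_mem _ _ _ _ (G.mul_mem _ _ _ _ hx hb) hy
  have h4 := closure_map_mem {x | ∃ q' : M, f q' = f q ∧ x ∈ G.fib (q' : Q)} (NF G f e (f q))
    (Submodule.isClosed_topologicalClosure _)
    ((LinearMap.mulRight ℂ e).comp (LinearMap.mulLeft ℂ e))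
    ((continuous_mul_const e).comp (continuous_const_mul e)) (by
      rintro x ⟨q', hq', hx⟩
      exact Submodule.le_topologicalClosure _ (Submodule.subset_span ⟨q', hq', x, hx, rfl⟩))
    _ h3
  have h5 : ((LinearMap.mulRight ℂ e).comp (LinearMap.mulLeft ℂ e)) ((z * e) * b * (e * z)) =
      (e * z * e) * b * (e * z * e) := by
    change e * (z * e * b * (e * z)) * e = _
    noncomm_ring
  rw [h5] at h4
  exact h4

end span

/-- Packet STP. -/
theorem t_STP : S_SELP → S_FPP → S_APP → S_CRN → S_NST → S_STP := by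
  intro hSELP hFPP hAPP hCRN hNST Q _ B _ G hC hV e M K hD
  obtain ⟨Q', _, f, hfs, hfK, H, _, ι, hher, hnt, hrange, G', hC', hfib, hP1, hP2, hP3, hV'⟩ :=
    hCRN Q B G hC e M K hD
  have hVSt := hV' hV
  obtain ⟨d₀, hd₀, hd₀s, hd₀0, h', hh', hh'n, hh'd⟩ := exists_bump G' hnt
  have hreg : Good2 B ∨ RegP G' d₀ := by
    rcases hSELP Q' H G' hC' hVSt d₀ hd₀ hd₀s hd₀0 with h | h | h
    · exact Or.inl (good2_of_hered ι hher (good2_of_altT G' hC' h))
    · exact Or.inr (hFPP Q' H G' hC' d₀ hd₀ h)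
    · exact Or.inr (hAPP Q' H G' hC' d₀ hd₀ h)
  rcases hreg with h | hreg
  · exact Or.inl h
  right
  obtain ⟨e₁, M₁, K₁, hKM₁, hK₁, hnrm₁, he₁s, he₁0, hout₁, hmem₁, hcomm₁, hcent₁, hunit₁,
    hfix₁⟩ := hreg
  have hfib' : ∀ (t : Q') (h : H), h ∈ G'.fib t ↔ ι h ∈ NF G f e t := fun t h => hfib t h
  have hKM := hD.le
  have hf1 : ∀ q : M, (q : Q) ∈ K → f q = 1 := fun q hq => (hfK q).2 hq
  have heW : e ∈ WW G K := by
    rw [mem_WW, ← iSup_eq_span]
    exact hD.mem
  have hιc : Continuous ι := cont_hom ι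
  -- the set `CSp`
  have hCSp : ∀ x, x ∈ CSp G e K ↔ ∃ c ∈ G'.fib 1, ι c = x := by
    have hS : {x : B | ∃ q : M, f q = 1 ∧ ∃ b ∈ G.fib (q : Q), x = e * b * e} =
        {x | ∃ k ∈ K, ∃ b ∈ G.fib k, x = e * b * e} := by
      ext x
      constructor
      · rintro ⟨q, hq, b, hb, rfl⟩
        exact ⟨q, (hfK q).1 hq, b, hb, rfl⟩
      · rintro ⟨k, hk, b, hb, rfl⟩
        exact ⟨⟨k, hKM hk⟩, hf1 _ hk, b, hb, rfl⟩
    have hNF : NF G f e 1 = CSp G e K := by
      unfold NF CSp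
      rw [hS]
    have hsub : ∀ x ∈ CSp G e K, x ∈ Set.range ι := by
      intro x hx
      rw [hrange]
      have h1 : Submodule.span ℂ {x : B | ∃ k ∈ K, ∃ b ∈ G.fib k, x = e * b * e} ≤
          (cornerAlg e hD.sa).toSubmodule := by
        refine Submodule.span_le.2 ?_
        rintro _ ⟨k, -, b, -, rfl⟩
        exact ⟨b, rfl⟩
      exact closure_mono h1 hx
    intro x
    constructor
    · intro hx
      obtain ⟨c, rfl⟩ := hsub x hx
      refine ⟨c, ?_, rfl⟩
      rw [hfib', hNF]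
      exact hx
    · rintro ⟨c, hc, rfl⟩
      rw [← hNF, ← hfib']
      exact hc
  set M' : Subgroup Q := (M₁.comap f).map M.subtype with hM'
  set K' : Subgroup Q := (K₁.comap f).map M.subtype with hK'
  have hmemM' : ∀ q, q ∈ M' ↔ ∃ h : q ∈ M, f ⟨q, h⟩ ∈ M₁ := by
    intro q
    constructor
    · rintro ⟨q', hq', rfl⟩
      exact ⟨q'.2, hq'⟩
    · rintro ⟨h, hq⟩
      exact ⟨⟨q, h⟩, hq, rfl⟩
  have hmemK' : ∀ q, q ∈ K' ↔ ∃ h : q ∈ M, f ⟨q, h⟩ ∈ K₁ := by
    intro q
    constructor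
    · rintro ⟨q', hq', rfl⟩
      exact ⟨q'.2, hq'⟩
    · rintro ⟨h, hq⟩
      exact ⟨⟨q, h⟩, hq, rfl⟩
  have hKK' : K ≤ K' := by
    intro k hk
    rw [hmemK']
    refine ⟨hKM hk, ?_⟩
    rw [hf1 _ hk]
    exact K₁.one_mem
  have hlt : K < K' := by
    refine lt_of_le_of_ne hKK' ?_
    intro heq
    apply hK₁
    rw [eq_bot_iff]
    intro t ht
    obtain ⟨q, rfl⟩ := hfs t
    have h1 : (q : Q) ∈ K' := (hmemK' _).2 ⟨q.2, ht⟩
    rw [← heq] at h1
    rw [Subgroup.mem_bot]
    exact hf1 q h1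
  have he'N : ι e₁ ∈ closure {x : B | ∃ y, x = e * y * e} := by
    rw [← hrange]
    exact Set.mem_range_self e₁
  obtain ⟨v, hv, hvlim⟩ := exists_seq e hD.sa (WW G K) (WW_closed G K) heW
  -- the cut of a fibre element by `v n`
  have hcut : ∀ (q : M) (b : B), b ∈ G.fib (q : Q) → ∀ n, ∃ w ∈ G'.fib (f q),
      ι w = v n * b * v n := by
    intro q b hb n
    obtain ⟨z, hz, hvz⟩ := hv n
    have h1 : v n * b * v n ∈ NF G f e (f q) := by
      rw [hvz]
      exact cut_mem G f hKM hf1 e heW hz q hb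
    have h2 : v n * b * v n ∈ Set.range ι := by
      rw [hrange]
      refine subset_closure ⟨z * e * b * (e * z), ?_⟩
      rw [hvz]
      noncomm_ring
    obtain ⟨w, hw⟩ := h2
    refine ⟨w, ?_, hw⟩
    rw [hfib', hw]
    exact h1
  have hlimb : ∀ b : B, Tendsto (fun n => ι e₁ * (v n * b * v n) * ι e₁) atTop
      (𝓝 (ι e₁ * b * ι e₁)) := by
    intro b
    have h1 := ((hvlim _ he'N).2.mul_const b).mul (hvlim _ he'N).1
    refine h1.congr (fun n => ?_)
    noncomm_ring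
  have hzero : ∀ b : B, e * b * e = 0 → ι e₁ * b * ι e₁ = 0 := by
    intro b hb
    obtain ⟨z, hz⟩ : ∃ z : ℕ → B, ∀ n, v n = e * z n * e := by
      choose z _ hz using hv
      exact ⟨z, hz⟩
    have h1 := hlimb b
    have h2 : (fun n => ι e₁ * (v n * b * v n) * ι e₁) = fun _ => (0 : B) := by
      funext n
      have : v n * b * v n = e * z n * (e * b * e) * z n * e := by
        rw [hz]; noncomm_ring
      rw [this, hb]; simp
    rw [h2] at h1
    exact tendsto_nhds_unique h1 tendsto_const_nhds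
  -- the commutation with `CSp`
  have hxe : ∀ x ∈ CSp G e K, x * ι e₁ = ι e₁ * x := by
    intro x hx
    obtain ⟨c, hc, rfl⟩ := (hCSp x).1 hx
    rw [← map_mul, ← map_mul, hcent₁ c hc]
  have hD0 : Dat0 G (ι e₁) M' K' := by
    refine ⟨?_, ?_, ?_, ?_, ?_, ?_, ?_, ?_⟩
    · intro k hk
      obtain ⟨h1, h2⟩ := (hmemK' k).1 hk
      exact (hmemM' k).2 ⟨h1, hKM₁ h2⟩
    · intro q hq k hk
      obtain ⟨h1, h2⟩ := (hmemM' q).1 hq
      obtain ⟨h3, h4⟩ := (hmemK' k).1 hk
      refine (hmemK' _).2 ⟨M.mul_mem (M.mul_mem h1 h3) (M.inv_mem h1), ?_⟩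
      have h5 : (⟨q * k * q⁻¹, M.mul_mem (M.mul_mem h1 h3) (M.inv_mem h1)⟩ : M) =
          ⟨q, h1⟩ * ⟨k, h3⟩ * ⟨q, h1⟩⁻¹ := rfl
      rw [h5, map_mul, map_mul, map_inv]
      exact hnrm₁ _ h2 _ h4
    · exact he₁s.map ι
    · intro h
      apply he₁0
      apply hher.1
      rw [h, map_zero]
    · rw [iSup_eq_span]
      have h1 : e₁ ∈ (Submodule.span ℂ (HS G' K₁)).topologicalClosure := by
        rw [← iSup_eq_span]
        exact hmem₁
      refine closure_map_mem (HS G' K₁) (Submodule.span ℂ (HS G K')).topologicalClosure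
        (Submodule.isClosed_topologicalClosure _) (lin ι) hιc ?_ e₁ h1
      rintro x ⟨t, ht, hx⟩
      have h2 : ι x ∈ NF G f e t := (hfib' t x).1 hx
      have h3 : NF G f e t ≤ (Submodule.span ℂ (HS G K')).topologicalClosure := by
        refine Submodule.topologicalClosure_minimal _ ?_ (Submodule.isClosed_topologicalClosure _)
        refine Submodule.span_le.2 ?_
        rintro _ ⟨q, hq, b, hb, rfl⟩
        have hqK' : (q : Q) ∈ K' := (hmemK' _).2 ⟨q.2, by rw [← hq] at ht; exact ht⟩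
        have heW' : e ∈ WW G K' := WW_mono G hKK' heW
        exact (WW G K').mul_mem ((WW G K').mul_mem heW' (fib_WW G hqK' hb)) heW'
      exact h3 h2
    · intro q hq b hb
      by_cases hqM : q ∈ M
      · have hq1 : f ⟨q, hqM⟩ ∉ M₁ := fun h => hq ((hmemM' q).2 ⟨hqM, h⟩)
        have h1 := hlimb b
        have h2 : (fun n => ι e₁ * (v n * b * v n) * ι e₁) = fun _ => (0 : B) := by
          funext n
          obtain ⟨w, hw, hww⟩ := hcut ⟨q, hqM⟩ b hb n
          rw [← hww, ← map_mul, ← map_mul, hout₁ _ hq1 w hw, map_zero]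
        rw [h2] at h1
        exact tendsto_nhds_unique h1 tendsto_const_nhds
      · exact hzero b (hD.out q hqM b hb)
    · intro k hk k' hk' b hb b' hb'
      obtain ⟨h1, h2⟩ := (hmemK' k).1 hk
      obtain ⟨h3, h4⟩ := (hmemK' k').1 hk'
      have hl := (hlimb b).mul (hlimb b')
      have hr := (hlimb b').mul (hlimb b)
      refine tendsto_nhds_unique hl (hr.congr (fun n => ?_))
      obtain ⟨w, hw, hww⟩ := hcut ⟨k, h1⟩ b hb n
      obtain ⟨w', hw', hww'⟩ := hcut ⟨k', h3⟩ b' hb' n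
      rw [← hww, ← hww']
      simp only [← map_mul]
      rw [hcomm₁ _ h2 _ h4 w hw w' hw']
    · intro c hc
      have hce : ι e₁ * c ∈ closure {x : B | ∃ y, x = e * y * e} := by
        refine map_mem_closure (f := fun x : B => x * c) (continuous_mul_const c) he'N ?_
        rintro _ ⟨y, rfl⟩
        refine ⟨y * c, ?_⟩
        calc e * y * e * c = e * y * (e * c) := mul_assoc _ _ _
          _ = e * y * (c * e) := by rw [hD.cent c hc]
          _ = e * (y * c) * e := by noncomm_ring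
      have h1 : Tendsto (fun n => c * (v n * ι e₁)) atTop (𝓝 (c * ι e₁)) :=
        (hvlim _ he'N).1.const_mul c
      have h2 : Tendsto (fun n => (ι e₁ * c) * v n) atTop (𝓝 (ι e₁ * c)) := (hvlim _ hce).2
      refine tendsto_nhds_unique h1 (h2.congr (fun n => ?_))
      obtain ⟨z, hz, hvz⟩ := hv n
      have h3 : c * v n ∈ CSp G e K := by
        have h4 : c * v n = e * (c * z) * e := by
          rw [hvz]
          have := hD.cent c hc
          calc c * (e * z * e) = (c * e) * z * e := by noncomm_ring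
            _ = e * c * z * e := by rw [this]
            _ = _ := by noncomm_ring
        rw [h4]
        have h5 := closure_map_mem (HS G K) (CSp G e K) (Submodule.isClosed_topologicalClosure _)
          (((LinearMap.mulRight ℂ e).comp (LinearMap.mulLeft ℂ e)).comp (LinearMap.mulLeft ℂ c))
          (((continuous_mul_const e).comp (continuous_const_mul e)).comp
            (continuous_const_mul c)) (by
            rintro x ⟨k, hk, hx⟩
            refine Submodule.le_topologicalClosure _ (Submodule.subset_span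
              ⟨k, hk, c * x, ?_, rfl⟩)
            exact unit_l G hc hx) z hz
        exact h5
      have h6 := hxe _ h3
      calc ι e₁ * c * v n = ι e₁ * (c * v n) := by noncomm_ring
        _ = c * v n * ι e₁ := h6.symm
        _ = c * (v n * ι e₁) := by noncomm_ring
  have hhC : ι h' ∈ CSp G e K := (hCSp _).2 ⟨h', hh', rfl⟩
  have hhn : ‖ι h'‖ ≤ 1 := (NonUnitalStarAlgHom.norm_apply_le ι h').trans hh'n
  have hhe : ι h' * ι e₁ = ι e₁ := by rw [← map_mul, hunit₁ h' hh' hh'd]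
  refine ⟨ι e₁, M', K', ι h', ⟨hD0, ?_⟩, hlt, hhC, hhn, hhe, hxe⟩
  intro ψ hψ k hk
  obtain ⟨hψ1, -⟩ := hNST Q B G hC e (ι e₁) (ι h') M K M' K' hD.toDat0 hD0 hKK' hhC hhn hhe hxe ψ hψ
  obtain ⟨φ', hφ'⟩ := hP2 ψ hψ1
  obtain ⟨h1, h2⟩ := (hmemK' k).1 hk
  refine hP3 φ' ψ hψ1 (fun y => (hφ' y).symm) ⟨k, h1⟩ (hfix₁ φ' ?_ _ h2)
  rw [hφ', map_mul]
  intro h0
  obtain ⟨x, hx, hx0⟩ := hψ.2
  apply hx0
  have hsa : star (ι e₁) = ι e₁ := (he₁s.map ι).star_eq
  have h00 : ψ (star (ι e₁) * ι e₁) = 0 := by rw [hsa]; exact h0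
  have h3 : ∀ y, ψ (y * ι e₁) = 0 := by
    intro y
    have := pt_zero ψ h00 (star y)
    rwa [star_star] at this
  have h4 : CSp G (ι e₁) K' ≤ LinearMap.ker ψ.toFun := by
    refine Submodule.topologicalClosure_minimal _ ?_ ?_
    · refine Submodule.span_le.2 ?_
      rintro _ ⟨k, -, b, -, rfl⟩
      exact h3 _
    · exact (isClosed_singleton (x := (0 : ℂ))).preimage (pt_cont ψ)
  exact h4 hx

end Pool.Agent.Helper50.Uct3
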